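import Pool.Agent.helper48.TH.Spec

/-! Row tha:VSA of project TH (MP_f42afa_pr, three rounds): spreading for adaptive sets. -/

set_option autoImplicit false

namespace TP.TW

open DP MeasureTheory Finset

theorem VSA_prob : IsProbabilityMeasure P1 := by
  unfold P1
  infer_instance

theorem VSA_nonneg (F : Set (V → Bool)) : 0 ≤ Pr F := measureReal_nonneg

theorem VSA_mono {F G : Set (V → Bool)} (h : F ⊆ G) : Pr F ≤ Pr G := by
  have := VSA_prob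
  exact measureReal_mono h

theorem VSA_le_one (F : Set (V → Bool)) : Pr F ≤ 1 := by
  have := VSA_prob
  exact measureReal_le_one

theorem VSA_union (κ : Type) (T : Finset κ) (F : κ → Set (V → Bool)) (G : Set (V → Bool)) (h : ∀ β ∈ G, ∃ z ∈ T, β ∈ F z) :
    Pr G ≤ ∑ z ∈ T, Pr (F z) := by
  have := VSA_prob
  refine (VSA_mono (G := ⋃ z ∈ T, F z) ?_).trans (measureReal_biUnion_finset_le T F)
  intro β hβ
  obtain ⟨z, hz, h1⟩ := h β hβ
  simp only [Set.mem_iUnion]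
  exact ⟨z, hz, h1⟩

theorem VSA_cd (lcr : LCR_stmt) (o k : Bool) (A Ω : Finset V) (B : (V → Bool) → Finset V) (h2 : Two A Ω B) (a b d e : ℤ) :
    CD {β | crs o (col β) k (til (A ∪ B β)) a b d e} (A ∪ rf a b d e) := by
  intro β β' h
  have h3 : B β = B β' := h2.2.2.2 β β' fun v hv => h v (mem_union_left _ hv)
  show crs o (col β) k (til (A ∪ B β)) a b d e ↔ crs o (col β') k (til (A ∪ B β')) a b d e
  rw [← h3]
  obtain ⟨Λ, hΛ, hD⟩ := lcr.1 o k (til (A ∪ B β)) a b d e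
  refine hD β β' fun v hv => h _ (mem_union_right _ ?_)
  have h4 : v ∈ rect a b d e := hΛ hv
  unfold rf
  rw [mem_image]
  refine ⟨v, ?_, rfl⟩
  rw [mem_product, mem_Icc, mem_Icc]
  exact ⟨⟨h4.1, h4.2.1⟩, ⟨h4.2.2.1, h4.2.2.2⟩⟩

/-- translated point -/
def VSA_sub (z : V) (x : ℕ × ℕ) : V := (z.1 - 2 * (x.1 : ℤ), z.2 - 2 * (x.2 : ℤ))

/-- translated configuration -/
def VSA_sh (x : ℕ × ℕ) (β : V → Bool) : V → Bool := fun v => β (v.1 + 2 * (x.1 : ℤ), v.2 + 2 * (x.2 : ℤ))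

theorem VSA_inj (z : V) : Function.Injective (VSA_sub z) := by
  rintro ⟨x, y⟩ ⟨u, w⟩ h
  simp only [VSA_sub, Prod.mk.injEq] at h ⊢
  omega

theorem VSA_log (t : ℕ) (ht : 1 ≤ t) : 1 ≤ Real.log ((t : ℝ) + 2) := by
  have h1 : (1 : ℝ) ≤ t := by exact_mod_cast ht
  rw [Real.le_log_iff_exp_le (by linarith)]
  have := Real.exp_one_lt_d9
  linarith

open Classical in
theorem VSA_core (lcr : LCR_stmt) (shi : SHI_stmt) (shp : SHP_stmt) (inp : INP_stmt) (plg : PLG_stmt)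
    (o k : Bool) (A Ω : Finset V) (B : (V → Bool) → Finset V) (h2 : Two A Ω B)
    (a b d e a' b' d' e' : ℤ) (s t : ℕ)
    (Z : (V → Bool) → Finset V) (Cz : ℝ)
    (hZ1 : ∀ β, Z β ⊆ rf a' b' d' e') (hZ2 : ∀ z, CD {β | z ∈ Z β} (rf a' b' d' e'))
    (hZ3 : ∀ (β : V → Bool) (S : Finset V), crs o (col β) k (til S) a' b' d' e' → ∃ z ∈ Z β, z ∈ S)
    (hZ4 : ∑ z ∈ rf a' b' d' e', Pr {β | z ∈ Z β} ≤ Cz)
    (hm : ∀ (c : V → Bool) (W : Set V) (i j : ℤ), 0 ≤ i → i ≤ s → 0 ≤ j → j ≤ s →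
      crs o c k W (a + 2 * i) (b + 2 * i) (d + 2 * j) (e + 2 * j) → crs o c k W a' b' d' e')
    (hn : ∀ z ∈ rf a' b' d' e', ∀ i j : ℤ, 0 ≤ i → i ≤ s → 0 ≤ j → j ≤ s →
      a - t ≤ z.1 - 2 * i ∧ z.1 - 2 * i ≤ b + t ∧ d - t ≤ z.2 - 2 * j ∧ z.2 - 2 * j ≤ e + t)
    (hU : (#(rf a' b' d' e') : ℝ) + 3 ≤ ((t : ℝ) + 2) ^ 5) (ht : 1 ≤ t) :
    ((s : ℝ) + 1) ^ 2 * Pr {β | crs o (col β) k (til (A ∪ B β)) a b d e} ≤
      (6 * Cz + 5) * wgt (nr A a b d e t) (nr Ω a b d e t) B t := by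
  set U := rf a' b' d' e' with hUd
  set F0 : Set (V → Bool) := {β | crs o (col β) k (til (A ∪ B β)) a b d e} with hF0
  let T : Finset (ℕ × ℕ) := range (s + 1) ×ˢ range (s + 1)
  have hT : #T = (s + 1) ^ 2 := by
    simp only [T]
    rw [card_product, card_range, sq]
  have hTm : ∀ x ∈ T, (0 : ℤ) ≤ x.1 ∧ (x.1 : ℤ) ≤ s ∧ (0 : ℤ) ≤ x.2 ∧ (x.2 : ℤ) ≤ s := by
    intro x hx
    simp only [T] at hx
    rw [mem_product, mem_range, mem_range] at hx
    omega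
  let p : V → ℝ := fun z => Pr {β | z ∈ Z β}
  have hp0 : ∀ z, 0 ≤ p z := fun z => VSA_nonneg _
  let F : V → ℕ × ℕ → Set (V → Bool) := fun z x => {β | VSA_sub z x ∈ B (VSA_sh x β)}
  set nA := nr A a b d e t with hnA
  set nO := nr Ω a b d e t with hnO
  -- the points close to the rectangle
  have hnear : ∀ z ∈ U, ∀ x ∈ T, ∀ S : Finset V, VSA_sub z x ∈ S → VSA_sub z x ∈ nr S a b d e t := by
    intro z hz x hx S hS
    have h3 := hTm x hx
    have h4 := hn z hz x.1 x.2 h3.1 h3.2.1 h3.2.2.1 h3.2.2.2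
    unfold nr
    rw [mem_filter]
    refine ⟨hS, ?_⟩
    simp only [VSA_sub]
    exact h4
  have hcardA : ∀ z ∈ U, #{x ∈ T | VSA_sub z x ∈ A} ≤ #nA := by
    intro z hz
    refine card_le_card_of_injOn (VSA_sub z) ?_ (VSA_inj z).injOn
    intro x hx
    rw [mem_coe, mem_filter] at hx
    exact hnear z hz x hx.1 A hx.2
  -- step 1
  have step1 : ∀ x ∈ T, Pr F0 ≤ ∑ z ∈ U, ((if VSA_sub z x ∈ A then p z else 0) + Pr ({β | z ∈ Z β} ∩ F z x)) := by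
    intro x hx
    have hxm := hTm x hx
    have h3 := shp F0 (A ∪ rf a b d e) (VSA_cd lcr o k A Ω B h2 a b d e) (2 * (x.1 : ℤ)) (2 * (x.2 : ℤ))
    rw [← h3]
    refine (VSA_union V U (fun z => {β | z ∈ Z β ∧ (VSA_sub z x ∈ A ∨ VSA_sub z x ∈ B (VSA_sh x β))}) _ ?_).trans ?_
    · intro β hβ
      have h4 : crs o (col fun v => β (v.1 + 2 * (x.1 : ℤ), v.2 + 2 * (x.2 : ℤ))) k (til (A ∪ B (VSA_sh x β))) a b d e := hβ
      rw [shi o k β (A ∪ B (VSA_sh x β)) a b d e x.1 x.2] at h4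
      have h5 := hm (col β) _ x.1 x.2 hxm.1 hxm.2.1 hxm.2.2.1 hxm.2.2.2 h4
      obtain ⟨z, hz1, hz2⟩ := hZ3 β _ h5
      refine ⟨z, hZ1 β hz1, hz1, ?_⟩
      unfold shf at hz2
      rw [mem_image] at hz2
      obtain ⟨v, hv, hvz⟩ := hz2
      have h6 : VSA_sub z x = v := by
        rw [← hvz]
        simp only [VSA_sub]
        ext
        · simp
        · simp
      rw [h6]
      exact mem_union.1 hv
    · refine sum_le_sum fun z hz => ?_
      by_cases hA : VSA_sub z x ∈ A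
      · rw [if_pos hA]
        have h4 : Pr {β | z ∈ Z β ∧ (VSA_sub z x ∈ A ∨ VSA_sub z x ∈ B (VSA_sh x β))} ≤ p z := VSA_mono fun β hβ => hβ.1
        have h5 := VSA_nonneg ({β | z ∈ Z β} ∩ F z x)
        linarith
      · rw [if_neg hA, zero_add]
        refine VSA_mono fun β hβ => ?_
        exact ⟨hβ.1, hβ.2.resolve_left hA⟩
  -- step 2
  have step2 : ((s : ℝ) + 1) ^ 2 * Pr F0 ≤ ∑ z ∈ U, (∑ x ∈ T, (if VSA_sub z x ∈ A then p z else 0) + ∑ x ∈ T, Pr ({β | z ∈ Z β} ∩ F z x)) := by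
    have h3 := sum_le_sum step1
    rw [sum_const, hT, nsmul_eq_mul, sum_comm] at h3
    push_cast at h3
    refine h3.trans (le_of_eq ?_)
    refine sum_congr rfl fun z _ => ?_
    rw [sum_add_distrib]
  -- the second factor
  set bb : ℝ := ∑ v ∈ nO, Pr {β | v ∈ B β} with hbb
  have hbb0 : 0 ≤ bb := sum_nonneg fun v _ => VSA_nonneg _
  have hFcd : ∀ (z : V), ∀ x ∈ T, CD (F z x) (shf (2 * (x.1 : ℤ), 2 * (x.2 : ℤ)) A) := by
    intro z x _ β β' h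
    have h3 : B (VSA_sh x β) = B (VSA_sh x β') := by
      refine h2.2.2.2 _ _ fun v hv => ?_
      simp only [VSA_sh]
      refine h _ ?_
      unfold shf
      rw [mem_image]
      exact ⟨v, hv, rfl⟩
    show VSA_sub z x ∈ B (VSA_sh x β) ↔ VSA_sub z x ∈ B (VSA_sh x β')
    rw [h3]
  have hPF : ∀ (z : V) (x : ℕ × ℕ), Pr (F z x) = Pr {β | VSA_sub z x ∈ B β} := by
    intro z x
    have hcd : CD {β | VSA_sub z x ∈ B β} A := by
      intro β β' h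
      show VSA_sub z x ∈ B β ↔ VSA_sub z x ∈ B β'
      rw [h2.2.2.2 β β' h]
    exact shp {β | VSA_sub z x ∈ B β} A hcd (2 * (x.1 : ℤ)) (2 * (x.2 : ℤ))
  have hsumF : ∀ z ∈ U, ∑ x ∈ T, Pr (F z x) ≤ bb := by
    intro z hz
    have h3 : ∑ x ∈ T, Pr (F z x) = ∑ v ∈ T.image (VSA_sub z), Pr {β | v ∈ B β} := by
      rw [sum_image fun x _ y _ h => VSA_inj z h]
      exact sum_congr rfl fun x _ => hPF z x
    have h4 : ∑ v ∈ T.image (VSA_sub z), Pr {β | v ∈ B β} = ∑ v ∈ (T.image (VSA_sub z)).filter (fun v => v ∈ Ω), Pr {β | v ∈ B β} := by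
      symm
      apply sum_filter_of_ne
      intro v _ hv
      by_contra hvO
      apply hv
      have h5 : {β : V → Bool | v ∈ B β} = ∅ := by
        ext β
        simp only [Set.mem_empty_iff_false, iff_false]
        intro h6
        exact hvO (h2.2.2.1 β h6)
      rw [h5]
      simp [Pr]
    rw [h3, h4]
    refine sum_le_sum_of_subset_of_nonneg ?_ fun v _ _ => VSA_nonneg _
    intro v hv
    rw [mem_filter, mem_image] at hv
    obtain ⟨⟨x, hx, rfl⟩, hvO⟩ := hv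
    exact hnear z hz x hx Ω hvO
  -- step 3
  have step3 : ∀ z ∈ U, ∑ x ∈ T, (if VSA_sub z x ∈ A then p z else 0) ≤ #nA * p z := by
    intro z hz
    rw [← sum_filter, sum_const, nsmul_eq_mul]
    exact mul_le_mul_of_nonneg_right (by exact_mod_cast hcardA z hz) (hp0 z)
  -- step 4
  have step4 : ∀ z ∈ U, ∑ x ∈ T, Pr ({β | z ∈ Z β} ∩ F z x) ≤ p z * (#nA * Real.log (1 / p z)) + 2 * p z * bb := by
    intro z hz
    have h3 := inp (ℕ × ℕ) T {β | z ∈ Z β} (F z) U (fun x => shf (2 * (x.1 : ℤ), 2 * (x.2 : ℤ)) A) #nA (hZ2 z) (hFcd z) ?_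
    · refine h3.trans ?_
      have h4 := mul_le_mul_of_nonneg_left (hsumF z hz) (mul_nonneg (by norm_num : (0 : ℝ) ≤ 2) (hp0 z))
      have h5 : 2 * Pr {β | z ∈ Z β} * ∑ τ ∈ T, Pr (F z τ) ≤ 2 * p z * bb := h4
      linarith
    · intro v hv
      refine card_le_card_of_injOn (VSA_sub v) ?_ (VSA_inj v).injOn
      intro x hx
      rw [mem_coe, mem_filter] at hx
      obtain ⟨hx1, hx2⟩ := hx
      unfold shf at hx2
      rw [mem_image] at hx2
      obtain ⟨w, hw, hwz⟩ := hx2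
      have h6 : VSA_sub v x = w := by
        rw [← hwz]
        simp only [VSA_sub]
        ext
        · simp
        · simp
      refine hnear v hv x hx1 A ?_
      rw [h6]
      exact hw
  -- step 5
  have hlog := VSA_log t ht
  have hplg : ∑ z ∈ U, p z * Real.log (1 / p z) ≤ (Cz + 1) * (5 * Real.log ((t : ℝ) + 2)) := by
    refine (plg U p fun z _ => hp0 z).trans ?_
    have h3 : Real.log (#U + 3) ≤ 5 * Real.log ((t : ℝ) + 2) := by
      have h4 : Real.log (((t : ℝ) + 2) ^ 5) = 5 * Real.log ((t : ℝ) + 2) := by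
        rw [Real.log_pow]
        norm_num
      rw [← h4]
      exact Real.log_le_log (by positivity) hU
    have h5 : 0 ≤ Real.log ((#U : ℝ) + 3) := Real.log_nonneg (by
      have : (0 : ℝ) ≤ #U := Nat.cast_nonneg _
      linarith)
    have h6 : 0 ≤ Cz + 1 := by
      have h7 : 0 ≤ ∑ z ∈ U, p z := sum_nonneg fun z _ => hp0 z
      have h8 : ∑ z ∈ U, p z ≤ Cz := hZ4
      linarith
    have h9 : ∑ z ∈ U, p z ≤ Cz := hZ4
    exact mul_le_mul (by linarith) h3 h5 h6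
  have hCz : ∑ z ∈ U, p z ≤ Cz := hZ4
  have hCz0 : 0 ≤ Cz := (sum_nonneg fun z _ => hp0 z).trans hCz
  have hnA0 : (0 : ℝ) ≤ #nA := Nat.cast_nonneg _
  have hfin : ∑ z ∈ U, (∑ x ∈ T, (if VSA_sub z x ∈ A then p z else 0) + ∑ x ∈ T, Pr ({β | z ∈ Z β} ∩ F z x)) ≤
      #nA * Cz + #nA * ((Cz + 1) * (5 * Real.log ((t : ℝ) + 2))) + 2 * Cz * bb := by
    have h3 : ∑ z ∈ U, (∑ x ∈ T, (if VSA_sub z x ∈ A then p z else 0) + ∑ x ∈ T, Pr ({β | z ∈ Z β} ∩ F z x)) ≤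
        ∑ z ∈ U, (#nA * p z + (#nA * (p z * Real.log (1 / p z)) + p z * (2 * bb))) := by
      refine sum_le_sum fun z hz => ?_
      have h4 := step3 z hz
      have h5 := step4 z hz
      linarith
    refine h3.trans ?_
    rw [sum_add_distrib, sum_add_distrib, ← mul_sum, ← mul_sum, ← sum_mul]
    have h6 := mul_le_mul_of_nonneg_left hCz hnA0
    have h7 := mul_le_mul_of_nonneg_left hplg hnA0
    have h8 := mul_le_mul_of_nonneg_right hCz (mul_nonneg (by norm_num : (0 : ℝ) ≤ 2) hbb0)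
    linarith
  refine step2.trans (hfin.trans ?_)
  have hw : wgt nA nO B t = #nA * Real.log ((t : ℝ) + 2) + bb := rfl
  rw [hw]
  have h3 : (#nA : ℝ) * Cz ≤ #nA * (Cz * Real.log ((t : ℝ) + 2)) :=
    mul_le_mul_of_nonneg_left (le_mul_of_one_le_right hCz0 hlog) hnA0
  have h4 : 2 * Cz * bb ≤ (6 * Cz + 5) * bb := mul_le_mul_of_nonneg_right (by linarith) hbb0
  have h5 : (6 * Cz + 5) * ((#nA : ℝ) * Real.log ((t : ℝ) + 2) + bb) =
      #nA * (Cz * Real.log ((t : ℝ) + 2)) + #nA * ((Cz + 1) * (5 * Real.log ((t : ℝ) + 2))) + (6 * Cz + 5) * bb := by ring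
  rw [h5]
  linarith

theorem VSA_br (a b d e : ℤ) (z : V) (h : z ∈ rf a b d e) : a - 1 ≤ z.1 ∧ z.1 ≤ b ∧ d ≤ z.2 ∧ z.2 ≤ e := by
  unfold rf at h
  rw [mem_image] at h
  obtain ⟨w, hw, rfl⟩ := h
  rw [mem_product, mem_Icc, mem_Icc] at hw
  obtain ⟨⟨h1, h2⟩, ⟨h3, h4⟩⟩ := hw
  unfold br
  split_ifs
  · exact ⟨by omega, h2, h3, h4⟩
  · exact ⟨by show a - 1 ≤ w.1 - 1; omega, by show w.1 - 1 ≤ b; omega, h3, h4⟩

theorem VSA_card (a b d e : ℤ) (t : ℕ) (ht : 1 ≤ t) (h : (b + 1 - a ≤ 8 * t ∧ e + 1 - d ≤ 3 * t) ∨ (b + 1 - a ≤ 3 * t ∧ e + 1 - d ≤ 8 * t)) :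
    (#(rf a b d e) : ℝ) + 3 ≤ ((t : ℝ) + 2) ^ 5 := by
  have h1 : #(rf a b d e) ≤ (b + 1 - a).toNat * (e + 1 - d).toNat := by
    refine card_image_le.trans ?_
    rw [card_product, Int.card_Icc, Int.card_Icc]
  have h2 : (b + 1 - a).toNat * (e + 1 - d).toNat ≤ 24 * t ^ 2 := by
    rcases h with ⟨h3, h4⟩ | ⟨h3, h4⟩
    · have h5 : (b + 1 - a).toNat ≤ 8 * t := by omega
      have h6 : (e + 1 - d).toNat ≤ 3 * t := by omega
      calc _ ≤ 8 * t * (3 * t) := Nat.mul_le_mul h5 h6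
        _ = 24 * t ^ 2 := by ring
    · have h5 : (b + 1 - a).toNat ≤ 3 * t := by omega
      have h6 : (e + 1 - d).toNat ≤ 8 * t := by omega
      calc _ ≤ 3 * t * (8 * t) := Nat.mul_le_mul h5 h6
        _ = 24 * t ^ 2 := by ring
  have h3 : (#(rf a b d e) : ℝ) ≤ 24 * (t : ℝ) ^ 2 := by exact_mod_cast h1.trans h2
  have h4 : (1 : ℝ) ≤ t := by exact_mod_cast ht
  have h5 : (27 : ℝ) ≤ ((t : ℝ) + 2) ^ 3 := by
    have : (3 : ℝ) ^ 3 ≤ ((t : ℝ) + 2) ^ 3 := pow_le_pow_left₀ (by norm_num) (by linarith) 3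
    linarith
  have h6 : (t : ℝ) ^ 2 ≤ ((t : ℝ) + 2) ^ 2 := pow_le_pow_left₀ (by linarith) (by linarith) 2
  have h7 : (1 : ℝ) ≤ (t : ℝ) ^ 2 := one_le_pow₀ h4
  calc (#(rf a b d e) : ℝ) + 3 ≤ 27 * (t : ℝ) ^ 2 := by linarith
    _ ≤ ((t : ℝ) + 2) ^ 3 * ((t : ℝ) + 2) ^ 2 := mul_le_mul h5 h6 (by positivity) (by positivity)
    _ = ((t : ℝ) + 2) ^ 5 := by ring

theorem VSA_wgt (A Ω : Finset V) (B : (V → Bool) → Finset V) (t : ℕ) (ht : 1 ≤ t) : 0 ≤ wgt A Ω B t := by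
  have hlog := VSA_log t ht
  have h1 : 0 ≤ ∑ v ∈ Ω, Pr {β | v ∈ B β} := sum_nonneg fun v _ => VSA_nonneg _
  have h2 : (0 : ℝ) ≤ #A * Real.log ((t : ℝ) + 2) := mul_nonneg (Nat.cast_nonneg _) (by linarith)
  have hw : wgt A Ω B t = #A * Real.log ((t : ℝ) + 2) + ∑ v ∈ Ω, Pr {β | v ∈ B β} := rfl
  rw [hw]
  linarith

theorem VSA_small (o k : Bool) (A Ω : Finset V) (B : (V → Bool) → Finset V) (h2 : Two A Ω B) (a b d e : ℤ) (t L : ℕ)
    (ht : 1 ≤ t) (htL : t < L) (C : ℝ) (hC : (L : ℝ) ^ 2 ≤ C) :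
    Pr {β | crs o (col β) k (til (A ∪ B β)) a b d e} ≤ C * wgt (nr A a b d e t) (nr Ω a b d e t) B t / (t : ℝ) ^ 2 := by
  have hlog := VSA_log t ht
  set nA := nr A a b d e t with hnA
  set nO := nr Ω a b d e t with hnO
  have hbb0 : 0 ≤ ∑ v ∈ nO, Pr {β | v ∈ B β} := sum_nonneg fun v _ => VSA_nonneg _
  have hw : wgt nA nO B t = #nA * Real.log ((t : ℝ) + 2) + ∑ v ∈ nO, Pr {β | v ∈ B β} := rfl
  have h3 : Pr {β | crs o (col β) k (til (A ∪ B β)) a b d e} ≤ wgt nA nO B t := by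
    rw [hw]
    rcases nA.eq_empty_or_nonempty with h | h
    · have h4 : Pr {β | crs o (col β) k (til (A ∪ B β)) a b d e} ≤ ∑ v ∈ nO, Pr {β | v ∈ B β} := by
        refine VSA_union V nO (fun v => {β | v ∈ B β}) _ ?_
        rintro β ⟨u, v, _, h5⟩
        have h6 : u ∈ rect a b d e := h5.1.1.1
        have h7 : br u ∈ A ∪ B β := h5.1.1.2
        have hnear : ∀ S : Finset V, br u ∈ S → br u ∈ nr S a b d e t := by
          intro S hS
          have h8 := VSA_br a b d e (br u) (by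
            unfold rf
            rw [mem_image]
            refine ⟨u, ?_, rfl⟩
            rw [mem_product, mem_Icc, mem_Icc]
            exact ⟨⟨h6.1, h6.2.1⟩, ⟨h6.2.2.1, h6.2.2.2⟩⟩)
          unfold nr
          rw [mem_filter]
          exact ⟨hS, by omega, by omega, by omega, by omega⟩
        rcases mem_union.1 h7 with h8 | h8
        · exfalso
          have h9 := hnear A h8
          rw [← hnA, h] at h9
          simp at h9
        · exact ⟨br u, hnear Ω (h2.2.2.1 β h8), h8⟩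
      have h5 : (0 : ℝ) ≤ #nA * Real.log ((t : ℝ) + 2) := mul_nonneg (Nat.cast_nonneg _) (by linarith)
      linarith
    · have h4 : (1 : ℝ) ≤ #nA := by exact_mod_cast card_pos.2 h
      have h5 : (1 : ℝ) ≤ #nA * Real.log ((t : ℝ) + 2) := one_le_mul_of_one_le_of_one_le h4 hlog
      have h6 := VSA_le_one {β | crs o (col β) k (til (A ∪ B β)) a b d e}
      linarith
  have ht0 : (0 : ℝ) < (t : ℝ) ^ 2 := by positivity
  rw [le_div_iff₀ ht0]
  have h4 : (t : ℝ) < L := by exact_mod_cast htL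
  have h5 : (t : ℝ) ^ 2 ≤ (L : ℝ) ^ 2 := pow_le_pow_left₀ (Nat.cast_nonneg _) h4.le 2
  have h6 := VSA_wgt nA nO B t ht
  calc _ ≤ wgt nA nO B t * (t : ℝ) ^ 2 := mul_le_mul_of_nonneg_right h3 ht0.le
    _ ≤ wgt nA nO B t * C := mul_le_mul_of_nonneg_left (h5.trans hC) h6
    _ = C * wgt nA nO B t := mul_comm _ _

theorem VSA_fin (P K C w : ℝ) (s t : ℕ) (hC : 256 * K ≤ C) (ht : 1 ≤ t) (hs : t ≤ 16 * (s + 1)) (hP : 0 ≤ P) (hw : 0 ≤ w)
    (h : ((s : ℝ) + 1) ^ 2 * P ≤ K * w) : P ≤ C * w / (t : ℝ) ^ 2 := by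
  have ht0 : (0 : ℝ) < (t : ℝ) ^ 2 := by positivity
  rw [le_div_iff₀ ht0]
  have h1 : (t : ℝ) ≤ 16 * ((s : ℝ) + 1) := by exact_mod_cast hs
  have h2 : (t : ℝ) ^ 2 ≤ (16 * ((s : ℝ) + 1)) ^ 2 := pow_le_pow_left₀ (Nat.cast_nonneg _) h1 2
  calc P * (t : ℝ) ^ 2 ≤ P * (16 * ((s : ℝ) + 1)) ^ 2 := mul_le_mul_of_nonneg_left h2 hP
    _ = 256 * (((s : ℝ) + 1) ^ 2 * P) := by ring
    _ ≤ 256 * (K * w) := by linarith
    _ = 256 * K * w := by ring
    _ ≤ C * w := mul_le_mul_of_nonneg_right hC hw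

theorem VSA (mno : MNO_stmt) (lcr : LCR_stmt) (shi : SHI_stmt) (shp : SHP_stmt) (zch : ZCH_stmt) (inp : INP_stmt) (plg : PLG_stmt) : VSA_stmt := by
  obtain ⟨Cz, hCz, L, hL, hZ⟩ := zch
  have hC1 : 256 * (6 * Cz + 5) ≤ 256 * (6 * Cz + 5) + (L : ℝ) ^ 2 := by
    have := sq_nonneg (L : ℝ)
    linarith
  have hC2 : (L : ℝ) ^ 2 ≤ 256 * (6 * Cz + 5) + (L : ℝ) ^ 2 := by linarith
  refine ⟨256 * (6 * Cz + 5) + (L : ℝ) ^ 2, by positivity, ?_⟩
  intro k A Ω B t a d ht h2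
  by_cases htL : t < L
  · exact ⟨VSA_small true k A Ω B h2 _ _ _ _ t L ht htL _ hC2, VSA_small false k A Ω B h2 _ _ _ _ t L ht htL _ hC2⟩
  have hs : 16 * (t / 16) ≤ t := Nat.mul_div_le t 16
  have hs2 : t ≤ 16 * (t / 16 + 1) := by omega
  set s := t / 16 with hsd
  constructor
  · obtain ⟨Z, hZ1, hZ2, hZ3, hZ4⟩ := hZ true k a (a + 6 * t + 2 * s) (d + 2 * s) (d + 2 * t) (by omega) (by omega)
      (fun _ => ⟨by omega, by omega⟩) (fun h => absurd h (by decide))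
    refine VSA_fin _ (6 * Cz + 5) _ _ s t hC1 ht hs2 (VSA_nonneg _) (VSA_wgt _ _ B t ht) ?_
    refine VSA_core lcr shi shp inp plg true k A Ω B h2 a (a + 6 * t) d (d + 2 * t)
      a (a + 6 * t + 2 * s) (d + 2 * s) (d + 2 * t) s t Z Cz hZ1 hZ2 hZ3 hZ4 ?_ ?_ ?_ ht
    · intro c W i j hi0 hi hj0 hj h
      exact (mno c k W (a + 2 * i) (a + 6 * t + 2 * i) (d + 2 * j) (d + 2 * t + 2 * j)
        a (a + 6 * t + 2 * s) (d + 2 * s) (d + 2 * t)).1 (by omega) (by omega) (by omega) (by omega) (by omega) h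
    · intro z hz i j hi0 hi hj0 hj
      have h3 := VSA_br _ _ _ _ z hz
      exact ⟨by omega, by omega, by omega, by omega⟩
    · exact VSA_card _ _ _ _ t ht (Or.inl ⟨by omega, by omega⟩)
  · obtain ⟨Z, hZ1, hZ2, hZ3, hZ4⟩ := hZ false k (a + 2 * s) (a + 2 * t) d (d + 6 * t + 2 * s) (by omega) (by omega)
      (fun h => absurd h (by decide)) (fun _ => ⟨by omega, by omega⟩)
    refine VSA_fin _ (6 * Cz + 5) _ _ s t hC1 ht hs2 (VSA_nonneg _) (VSA_wgt _ _ B t ht) ?_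
    refine VSA_core lcr shi shp inp plg false k A Ω B h2 a (a + 2 * t) d (d + 6 * t)
      (a + 2 * s) (a + 2 * t) d (d + 6 * t + 2 * s) s t Z Cz hZ1 hZ2 hZ3 hZ4 ?_ ?_ ?_ ht
    · intro c W i j hi0 hi hj0 hj h
      exact (mno c k W (a + 2 * i) (a + 2 * t + 2 * i) (d + 2 * j) (d + 6 * t + 2 * j)
        (a + 2 * s) (a + 2 * t) d (d + 6 * t + 2 * s)).2 (by omega) (by omega) (by omega) (by omega) (by omega) h
    · intro z hz i j hi0 hi hj0 hj
      have h3 := VSA_br _ _ _ _ z hz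
      exact ⟨by omega, by omega, by omega, by omega⟩
    · exact VSA_card _ _ _ _ t ht (Or.inr ⟨by omega, by omega⟩)

end TP.TW
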